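import Mathlib

namespace Pool.Agent.Results.MP_a437dc_al.No

open CategoryTheory Complex

/-- Local groups: `x ↦ x ^ p` is bijective for every prime `p`. -/
def Local (T : GrpCat.{0}) : Prop := ∀ p : ℕ, p.Prime → Function.Bijective fun x : T => x ^ p

/-- `(L, η)` is the rationalization: `η_G : G → LG` is universal among maps to local groups. -/
def IsRat (L : GrpCat.{0} ⥤ GrpCat.{0}) (η : 𝟭 GrpCat.{0} ⟶ L) : Prop :=
  ∀ G, Local (L.obj G) ∧ ∀ T, Local T → ∀ f : G ⟶ T, ∃! g : L.obj G ⟶ T, η.app G ≫ g = f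

/-- `1 → N → E → G → 1` is short exact. -/
def IsExt {N E G : GrpCat.{0}} (i : N ⟶ E) (p : E ⟶ G) : Prop :=
  Function.Injective i.hom ∧ Function.Surjective p.hom ∧ i.hom.range = p.hom.ker

/-- The fibre product `E ×_G H`. -/
def pb {E G H : GrpCat.{0}} (p : E ⟶ G) (f : H ⟶ G) : Subgroup (E × H) :=
  (p.hom.comp (MonoidHom.fst E H)).eqLocus (f.hom.comp (MonoidHom.snd E H))

/-- The inclusion `N → E ×_G H`, `n ↦ (i n, 1)`. -/
def pbi {N E G H : GrpCat.{0}} {i : N ⟶ E} {p : E ⟶ G} (h : IsExt i p) (f : H ⟶ G) :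
    N ⟶ GrpCat.of (pb p f) :=
  GrpCat.ofHom ((i.hom.prod 1).codRestrict _ fun n => by
    have : i.hom n ∈ p.hom.ker := h.2.2 ▸ ⟨n, rfl⟩
    exact (MonoidHom.mem_ker.1 this).trans (map_one f.hom).symm)

/-- The projection `E ×_G H → H`. -/
def pbp {E G H : GrpCat.{0}} (p : E ⟶ G) (f : H ⟶ G) : GrpCat.of (pb p f) ⟶ H :=
  GrpCat.ofHom ((MonoidHom.snd E H).comp (pb p f).subtype)

/-- Pullbacks of `L`-flat extensions are `L`-flat. -/
def CondFlat (L : GrpCat.{0} ⥤ GrpCat.{0}) : Prop :=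
  ∀ (N E G H : GrpCat.{0}) (i : N ⟶ E) (p : E ⟶ G) (h : IsExt i p) (f : H ⟶ G),
    IsExt (L.map i) (L.map p) → IsExt (L.map (pbi h f)) (L.map (pbp p f))

noncomputable section

/-- `ℂ ⋊ ℚ`, with `r` acting by `exp (c r)`. -/
@[ext] structure A (c : ℂ) where
  v : ℂ
  r : ℚ

variable {c : ℂ}

instance : Group (A c) where
  mul a b := ⟨a.v + exp (c * a.r) * b.v, a.r + b.r⟩
  one := ⟨0, 0⟩
  inv a := ⟨-(exp (c * (-a.r : ℚ)) * a.v), -a.r⟩
  mul_assoc a b d := by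
    refine A.ext ?_ (add_assoc _ _ _)
    show a.v + exp (c * a.r) * b.v + exp (c * (a.r + b.r : ℚ)) * d.v =
      a.v + exp (c * a.r) * (b.v + exp (c * b.r) * d.v)
    push_cast
    rw [mul_add, Complex.exp_add]
    ring
  one_mul a := by
    refine A.ext ?_ (zero_add _)
    show 0 + exp (c * (0 : ℚ)) * a.v = a.v
    simp
  mul_one a := by
    refine A.ext ?_ (add_zero _)
    show a.v + exp (c * a.r) * 0 = a.v
    simp
  inv_mul_cancel a := by
    refine A.ext ?_ (neg_add_cancel _)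
    exact neg_add_cancel _

theorem mul_def (a b : A c) : a * b = ⟨a.v + exp (c * a.r) * b.v, a.r + b.r⟩ := rfl

theorem pow_def (a : A c) (n : ℕ) :
    a ^ n = ⟨(∑ i ∈ Finset.range n, exp (c * a.r) ^ i) * a.v, n * a.r⟩ := by
  induction n with
  | zero => exact A.ext (by simp; rfl) (by simp; rfl)
  | succ n ih =>
    rw [pow_succ, ih, mul_def, Finset.sum_range_succ, ← Complex.exp_nat_mul]
    refine A.ext ?_ ?_
    · push_cast
      rw [add_mul, mul_left_comm c]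
    · push_cast
      ring

theorem geom (hc : c.re = 1) (r : ℚ) {n : ℕ} (hn : n ≠ 0) :
    ∑ i ∈ Finset.range n, exp (c * r) ^ i ≠ 0 := by
  intro h
  have h1 := mul_geom_sum (exp (c * r)) n
  rw [h, mul_zero, eq_comm, sub_eq_zero] at h1
  have h2 := congrArg norm h1
  rw [norm_pow, Complex.norm_exp, norm_one, ← Real.exp_nat_mul, Real.exp_eq_one_iff] at h2
  have h3 : r = 0 := by simpa [hc, hn] using h2
  simp [h3, hn] at h

theorem locA (hc : c.re = 1) : Local (GrpCat.of (A c)) := by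
  intro p hp
  have h0 : (p : ℚ) ≠ 0 := by exact_mod_cast hp.ne_zero
  constructor
  · intro a b hab
    have h : (a : A c) ^ p = b ^ p := hab
    rw [pow_def, pow_def] at h
    have h1 : a.r = b.r := mul_left_cancel₀ h0 (congrArg A.r h)
    have h2 := congrArg A.v h
    simp only [h1] at h2
    exact A.ext (mul_left_cancel₀ (geom hc _ hp.ne_zero) h2) h1
  · intro b
    refine ⟨⟨b.v / ∑ i ∈ Finset.range p, exp (c * (b.r / p : ℚ)) ^ i, b.r / p⟩, ?_⟩
    show (_ : A c) ^ p = b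
    rw [pow_def]
    exact A.ext (mul_div_cancel₀ _ (geom hc _ hp.ne_zero)) (mul_div_cancel₀ _ h0)

theorem locF (K : Type) [Field K] [CharZero K] : Local (GrpCat.of (Multiplicative K)) := by
  intro p hp
  have h0 : (p : K) ≠ 0 := by exact_mod_cast hp.ne_zero
  have : (fun x : K => p • x) = fun x => (p : K) * x := funext fun x => nsmul_eq_mul p x
  exact (this ▸ mulLeft_bijective₀ (p : K) h0 : Function.Bijective fun x : K => p • x)

def ι (c : ℂ) : GrpCat.of (Multiplicative ℂ) ⟶ GrpCat.of (A c) :=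
  GrpCat.ofHom (MonoidHom.mk' (fun v => ⟨v.toAdd, 0⟩) fun a b => by simp [mul_def])

def π (c : ℂ) : GrpCat.of (A c) ⟶ GrpCat.of (Multiplicative ℚ) :=
  GrpCat.ofHom (MonoidHom.mk' (fun a => .ofAdd a.r) fun _ _ => rfl)

theorem ext1 : IsExt (ι c) (π c) :=
  ⟨fun _ _ h => congrArg A.v h, fun r => ⟨⟨0, r.toAdd⟩, rfl⟩, Subgroup.ext fun a =>
    ⟨by rintro ⟨v, rfl⟩; rfl, fun h => ⟨.ofAdd a.v, A.ext rfl (Eq.symm h)⟩⟩⟩

def zq : GrpCat.of (Multiplicative ℤ) ⟶ GrpCat.of (Multiplicative ℚ) :=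
  GrpCat.ofHom (AddMonoidHom.toMultiplicative (Int.castAddHom ℚ))

def c' : ℂ := 1 + 2 * Real.pi * I

def tw : GrpCat.of (pb (π 1) zq) ⟶ GrpCat.of (A c') :=
  GrpCat.ofHom (MonoidHom.mk' (fun x => ⟨x.1.1.v, x.1.1.r⟩) fun x y => by
    refine A.ext ?_ rfl
    have h : x.1.1.r = ((Multiplicative.toAdd (α := ℤ) x.1.2 : ℤ) : ℚ) := x.2
    show x.1.1.v + exp (1 * x.1.1.r) * y.1.1.v = x.1.1.v + exp (c' * x.1.1.r) * y.1.1.v
    rw [h, c', add_mul, Complex.exp_add, mul_comm (2 * Real.pi * I), Rat.cast_intCast,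
      Complex.exp_int_mul_two_pi_mul_I, mul_one])

end

theorem result (L : GrpCat.{0} ⥤ GrpCat.{0}) (η : 𝟭 GrpCat.{0} ⟶ L) (hL : IsRat L η) :
    ¬ CondFlat L := by
  intro hC
  have nat : ∀ {X Y : GrpCat.{0}} (f : X ⟶ Y) (x : X),
      (L.map f).hom ((η.app X).hom x) = (η.app Y).hom (f.hom x) := fun f x =>
    (congrArg (fun g => g.hom x) (η.naturality f)).symm
  have bij : ∀ T, Local T → Function.Bijective (η.app T).hom := by
    intro T hT
    obtain ⟨g, hg, -⟩ := (hL T).2 T hT (𝟙 T)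
    have h2 : g ≫ η.app T = 𝟙 _ := ((hL T).2 _ (hL T).1 (η.app T)).unique
      (by rw [← Category.assoc, hg]; simp) (by simp)
    exact Function.bijective_iff_has_inverse.2 ⟨g.hom, fun x => congrArg (fun g => g.hom x) hg,
      fun x => congrArg (fun g => g.hom x) h2⟩
  have bN := bij _ (locF ℂ)
  have bE := bij _ (locA (c := 1) rfl)
  have bQ := bij _ (locF ℚ)
  have hflat : IsExt (L.map (ι 1)) (L.map (π 1)) := by
    refine ⟨fun a b h => ?_, fun y => ?_, Subgroup.ext fun x => ?_⟩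
    · obtain ⟨a, rfl⟩ := bN.2 a
      obtain ⟨b, rfl⟩ := bN.2 b
      rw [nat, nat] at h
      rw [ext1.1 (bE.1 h)]
    · obtain ⟨y, rfl⟩ := bQ.2 y
      obtain ⟨x, rfl⟩ := (ext1 (c := 1)).2.1 y
      exact ⟨_, nat _ x⟩
    · obtain ⟨x, rfl⟩ := bE.2 x
      rw [MonoidHom.mem_ker, nat, map_eq_one_iff _ bQ.1, ← MonoidHom.mem_ker, ← ext1.2.2]
      constructor
      · rintro ⟨a, ha⟩
        obtain ⟨a, rfl⟩ := bN.2 a
        rw [nat] at ha
        exact ⟨a, bE.1 ha⟩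
      · rintro ⟨a, rfl⟩
        exact ⟨_, nat _ a⟩
  have hP := (hC _ _ _ _ _ _ ext1 zq hflat).2.2
  let P := GrpCat.of (pb (π 1) zq)
  let t : P := ⟨(⟨0, 1⟩, Multiplicative.ofAdd (1 : ℤ)), (Int.cast_one (R := ℚ)).symm⟩
  obtain ⟨s, hs⟩ := ((hL P).1 2 Nat.prime_two).2 ((η.app P).hom t)
  have hn : s * (L.map (pbi ext1 zq)).hom ((η.app _).hom (Multiplicative.ofAdd (1 : ℂ))) * s⁻¹ ∈
      (L.map (pbi (ext1 (c := 1)) zq)).hom.range := by
    rw [hP]
    exact (MonoidHom.normal_ker _).conj_mem _ (hP ▸ ⟨_, rfl⟩) _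
  obtain ⟨m, hm⟩ := hn
  obtain ⟨m, rfl⟩ := bN.2 m
  rw [nat, nat, eq_mul_inv_iff_mul_eq] at hm
  have key : ∀ c : ℂ, c.re = 1 → ∀ f : P ⟶ GrpCat.of (A c), f.hom t = ⟨0, 1⟩ →
      (∀ v, f.hom ((pbi ext1 zq).hom v) = ⟨Multiplicative.toAdd (α := ℂ) v, 0⟩) →
      Multiplicative.toAdd (α := ℂ) m = exp (c * (1 / 2 : ℚ)) := by
    intro c hc f h1 h2
    obtain ⟨g, hg, -⟩ := (hL P).2 _ (locA hc) f
    have hg' : ∀ x, g.hom ((η.app P).hom x) = f.hom x := fun x => congrArg (fun g => g.hom x) hg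
    have h3 : g.hom s = ⟨0, 1 / 2⟩ := by
      refine (locA hc 2 Nat.prime_two).1 ?_
      have h4 : (g.hom s) ^ 2 = ⟨0, 1⟩ := by
        rw [← map_pow, ← h1, ← hg']
        exact congrArg _ hs
      refine h4.trans ?_
      show _ = (_ : A c) ^ 2
      rw [pow_def]
      exact A.ext (by simp) (by norm_num)
    have h5 := congrArg g.hom hm
    rw [map_mul, map_mul, hg', hg', h2, h2, h3] at h5
    have h6 : Multiplicative.toAdd (α := ℂ) m + exp (c * (0 : ℚ)) * 0 =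
        0 + exp (c * (1 / 2 : ℚ)) * 1 := congrArg A.v h5
    simpa using h6
  have k1 := key 1 rfl (GrpCat.ofHom ((MonoidHom.fst _ _).comp (pb (π 1) zq).subtype)) rfl
    fun _ => rfl
  have k2 := key c' (by simp [c']) tw rfl fun _ => rfl
  rw [k1, c', add_mul, Complex.exp_add, show (2 * Real.pi * I * (1 / 2 : ℚ) : ℂ) = Real.pi * I by
    push_cast; ring, Complex.exp_pi_mul_I] at k2
  exact Complex.exp_ne_zero (1 * (1 / 2 : ℚ)) (by
    generalize exp (1 * (1 / 2 : ℚ)) = z at k2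
    linear_combination k2 / 2)

end Pool.Agent.Results.MP_a437dc_al.No
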